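import Pool.Agent.W889.SR.Stm2

/-!
# Project SR2, part FORM: a `Π_l` sentence for equivalence below `l`
-/

set_option autoImplicit false

namespace Pool.Agent.W494.SR

open Set Ordinal Pool.Agent.W889.SR

theorem app1 {A : Type} {n k : ℕ} (a : Fin n → A) (c : Fin k → A) :
    Fin.append a c = Sum.elim a c ∘ finSumFinEquiv.symm := by
  funext i
  refine Fin.addCases (fun i => ?_) (fun i => ?_) i
  · simp
  · simp

theorem app2 {A : Type} {n k : ℕ} (a : Fin n → A) (c : Fin k → A) :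
    Sum.elim a c = Fin.append a c ∘ finSumFinEquiv := by
  rw [app1]
  funext i
  simp

theorem BF_app (δ : Ordinal.{0}) {A B : Type} {n k : ℕ} (r : A → A → Prop) (a : Fin n → A)
    (c : Fin k → A) (s : B → B → Prop) (b : Fin n → B) (d : Fin k → B) :
    BF δ r univ (Sum.elim a c) s univ (Sum.elim b d) ↔
      BF δ r univ (Fin.append a c) s univ (Fin.append b d) := by
  constructor
  · intro h
    rw [app1, app1]
    exact h.reindex _
  · intro h
    rw [app2, app2]
    exact h.reindex _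

theorem BF_iff' (γ : Ordinal.{0}) {A B : Type} {n : ℕ} (r : A → A → Prop) (a : Fin n → A)
    (s : B → B → Prop) (b : Fin n → B) : BF γ r univ a s univ b ↔
      (SameQf r a s b ∧ ∀ δ, δ < γ → ∀ (k : ℕ) (d : Fin k → B), ∃ c : Fin k → A,
        BF δ s univ (Fin.append b d) r univ (Fin.append a c)) := by
  rw [BF_iff]
  constructor
  · rintro ⟨h1, h2⟩
    refine ⟨h1, fun δ hδ k d => ?_⟩
    obtain ⟨c, -, hc⟩ := h2 δ hδ k d (fun _ => mem_univ _)
    exact ⟨c, (BF_app δ s b d r a c).1 hc⟩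
  · rintro ⟨h1, h2⟩
    refine ⟨h1, fun δ hδ k d _ => ?_⟩
    obtain ⟨c, hc⟩ := h2 δ hδ k d
    exact ⟨c, fun _ => mem_univ _, (BF_app δ s b d r a c).2 hc⟩

theorem two_mul_lt {δ γ : Ordinal.{0}} (h : δ < γ) : 2 * δ + 1 < 2 * γ := by
  have h1 : 2 * (δ + 1) ≤ 2 * γ := by
    gcongr
    exact Order.add_one_le_of_lt h
  rw [mul_add_one] at h1
  refine lt_of_lt_of_le ?_ h1
  have : (1 : Ordinal.{0}) < 2 := by
    have := Nat.cast_lt (α := Ordinal.{0}) (m := 1) (n := 2)
    exact_mod_cast this.2 (by norm_num)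
  gcongr

theorem lim_add {l : Ordinal.{0}} (hl : Lim l) {γ : Ordinal.{0}} (h : γ < l) (n : ℕ) :
    γ + n < l := by
  induction n with
  | zero => simpa using h
  | succ n ih =>
    have := hl.2 _ ih
    rw [Nat.cast_succ, ← add_assoc]
    exact this

theorem two_mul_lt_lim {l : Ordinal.{0}} (hl : Lim l) {γ : Ordinal.{0}} (h : γ < l) :
    2 * γ < l := by
  have h1 := Ordinal.div_add_mod γ ω
  obtain ⟨m, hm⟩ := Ordinal.lt_omega0.1 (Ordinal.mod_lt γ Ordinal.omega0_ne_zero)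
  have h2 : 2 * γ = ω * (γ / ω) + ((2 * m : ℕ) : Ordinal.{0}) := by
    conv_lhs => rw [← h1, hm]
    rw [mul_add, ← mul_assoc]
    have h3 : (2 : Ordinal.{0}) * ω = ω := by
      have := Ordinal.natCast_mul_omega0 (n := 2) (by norm_num)
      exact_mod_cast this
    rw [h3]
    push_cast
    rfl
  rw [h2]
  apply lim_add hl
  refine lt_of_le_of_lt ?_ h
  conv_rhs => rw [← h1]
  exact le_self_add

theorem lv_qf {n : ℕ} (φ : QF n) (b : Bool) (α : Ordinal.{0}) : (Fml.qf φ).Lv b α := by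
  cases b <;> simp [Fml.Lv]

theorem key (hF : FM) {A : Type} [Countable A] [Nonempty A] (r : A → A → Prop) :
    ∀ γ : Ordinal.{0}, (Set.Iio γ).Countable → ∀ (n : ℕ) (a : Fin n → A),
      (∃ φ : Fml n, φ.Lv false (2 * γ) ∧ ∀ (B : Type) (s : B → B → Prop) (b : Fin n → B),
        φ.Realize s b ↔ BF γ r univ a s univ b) ∧
      (∃ φ : Fml n, φ.Lv false (2 * γ) ∧ ∀ (B : Type) (s : B → B → Prop) (b : Fin n → B),
        φ.Realize s b ↔ BF γ s univ b r univ a) := by
  intro γ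
  induction γ using Ordinal.induction with
  | h γ ih =>
    intro hcnt n a
    obtain ⟨φ0, hφ0⟩ := hF.qf n (fun i j => r (a i) (a j)) (fun i j => a i = a j)
    have hq1 : ∀ (B : Type) (s : B → B → Prop) (b : Fin n → B),
        (Fml.qf φ0).Realize s b ↔ SameQf r a s b := by
      intro B s b
      show φ0.Realize s b ↔ _
      rw [hφ0]
      exact ⟨fun h => ⟨fun i j => (h.1 i j).symm, fun i j => (h.2 i j).symm⟩,
        fun h => ⟨fun i j => (h.1 i j).symm, fun i j => (h.2 i j).symm⟩⟩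
    have hq2 : ∀ (B : Type) (s : B → B → Prop) (b : Fin n → B),
        (Fml.qf φ0).Realize s b ↔ SameQf s b r a := by
      intro B s b
      rw [hq1]
      exact ⟨fun h => h.symm, fun h => h.symm⟩
    rcases eq_or_ne γ 0 with h0 | h0
    · subst h0
      have hno : ∀ δ : Ordinal.{0}, ¬ δ < 0 := fun δ => not_lt_bot
      refine ⟨⟨Fml.qf φ0, lv_qf _ _ _, fun B s b => ?_⟩, ⟨Fml.qf φ0, lv_qf _ _ _, fun B s b => ?_⟩⟩
      · rw [hq1, BF_iff']
        exact ⟨fun h => ⟨h, fun δ hδ => absurd hδ (hno δ)⟩, fun h => h.1⟩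
      · rw [hq2, BF_iff']
        exact ⟨fun h => ⟨h, fun δ hδ => absurd hδ (hno δ)⟩, fun h => h.1⟩
    · have hpos : 0 < γ := bot_lt_iff_ne_bot.2 h0
      have hone : 1 ≤ 2 * γ := by
        have := two_mul_lt hpos
        rw [mul_zero, zero_add] at this
        exact this.le
      have hcnt' : ∀ δ, δ < γ → (Set.Iio δ).Countable := fun δ hδ =>
        hcnt.mono (Set.Iio_subset_Iio hδ.le)
      have : Countable (Set.Iio γ) := hcnt
      have : Nonempty (Set.Iio γ) := ⟨⟨0, hpos⟩⟩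
      constructor
      · -- (i)
        have h1 : ∀ p : Set.Iio γ × ℕ, ∃ ψ : Fml n, ψ.Lv false (2 * γ) ∧
            ∀ (B : Type) (s : B → B → Prop) (b : Fin n → B), ψ.Realize s b ↔
              ∀ d : Fin p.2 → B, ∃ c : Fin p.2 → A,
                BF p.1.1 s univ (Fin.append b d) r univ (Fin.append a c) := by
          rintro ⟨⟨δ, hδ⟩, k⟩
          have hδ' : δ < γ := hδ
          choose χ hχ1 hχ2 using fun c : Fin k → A =>
            (ih δ hδ' (hcnt' δ hδ') (n + k) (Fin.append a c)).2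
          choose χ' hχ'1 hχ'2 using fun c : Fin k → A => hF.lift (n + k) (χ c) false
          obtain ⟨f, hf⟩ := exists_surjective_nat (Fin k → A)
          have h1d : 1 ≤ 2 * δ + 1 := by
            have : (0 : Ordinal.{0}) + 1 ≤ 2 * δ + 1 := by
              gcongr
              exact bot_le
            rwa [zero_add] at this
          obtain ⟨χ2, hχ21, hχ22⟩ := hF.disj (2 * δ + 1) h1d (n + k) (fun i => χ' (f i))
            (fun i => hχ'1 (f i) (2 * δ) (2 * δ + 1) (by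
              rw [← Order.succ_eq_add_one]; exact Order.lt_succ _) (hχ1 (f i)))
          obtain ⟨χ3, hχ31, hχ32⟩ := hF.lift (n + k) χ2 true
          obtain ⟨ψ, hψ1, hψ2⟩ := hF.all (2 * γ) hone n k χ3
            (hχ31 (2 * δ + 1) (2 * γ) (two_mul_lt hδ') hχ21)
          refine ⟨ψ, hψ1, fun B s b => ?_⟩
          rw [hψ2]
          refine forall_congr' (fun d => ?_)
          rw [hχ32, hχ22]
          constructor
          · rintro ⟨i, hi⟩
            rw [hχ'2, hχ2] at hi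
            exact ⟨f i, hi⟩
          · rintro ⟨c, hc⟩
            obtain ⟨i, rfl⟩ := hf c
            refine ⟨i, ?_⟩
            rw [hχ'2, hχ2]
            exact hc
        choose ψ hψ1 hψ2 using h1
        obtain ⟨f, hf⟩ := exists_surjective_nat (Set.Iio γ × ℕ)
        obtain ⟨φ1, hφ11, hφ12⟩ := hF.conj (2 * γ) hone n (fun i => ψ (f i)) (fun i => hψ1 (f i))
        obtain ⟨φ2, hφ21, hφ22⟩ := hF.and false (2 * γ) n (Fml.qf φ0) φ1 (lv_qf _ _ _) hφ11
        refine ⟨φ2, hφ21, fun B s b => ?_⟩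
        rw [hφ22, hq1, hφ12, BF_iff']
        constructor
        · rintro ⟨h1, h2⟩
          refine ⟨h1, fun δ hδ k => ?_⟩
          obtain ⟨i, hi⟩ := hf (⟨δ, hδ⟩, k)
          have h3 := (hψ2 (f i) B s b).1 (h2 i)
          rw [hi] at h3
          exact h3
        · rintro ⟨h1, h2⟩
          refine ⟨h1, fun i => ?_⟩
          rw [hψ2]
          exact h2 (f i).1.1 (f i).1.2 (f i).2
      · -- (ii)
        have h1 : ∀ p : (Set.Iio γ) × (Σ k : ℕ, Fin k → A), ∃ ψ : Fml n, ψ.Lv false (2 * γ) ∧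
            ∀ (B : Type) (s : B → B → Prop) (b : Fin n → B), ψ.Realize s b ↔
              ∃ d : Fin p.2.1 → B,
                BF p.1.1 r univ (Fin.append a p.2.2) s univ (Fin.append b d) := by
          rintro ⟨⟨δ, hδ⟩, ⟨k, c⟩⟩
          have hδ' : δ < γ := hδ
          obtain ⟨χ, hχ1, hχ2⟩ := (ih δ hδ' (hcnt' δ hδ') (n + k) (Fin.append a c)).1
          obtain ⟨χ', hχ'1, hχ'2⟩ := hF.lift (n + k) χ false
          have h1d : 1 ≤ 2 * δ + 1 := by
            have : (0 : Ordinal.{0}) + 1 ≤ 2 * δ + 1 := by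
              gcongr
              exact bot_le
            rwa [zero_add] at this
          obtain ⟨χ2, hχ21, hχ22⟩ := hF.ex (2 * δ + 1) h1d n k χ'
            (hχ'1 (2 * δ) (2 * δ + 1) (by
              rw [← Order.succ_eq_add_one]; exact Order.lt_succ _) hχ1)
          obtain ⟨χ3, hχ31, hχ32⟩ := hF.lift n χ2 true
          refine ⟨χ3, hχ31 (2 * δ + 1) (2 * γ) (two_mul_lt hδ') hχ21, fun B s b => ?_⟩
          rw [hχ32, hχ22]
          refine exists_congr (fun d => ?_)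
          rw [hχ'2, hχ2]
        choose ψ hψ1 hψ2 using h1
        obtain ⟨f, hf⟩ := exists_surjective_nat ((Set.Iio γ) × (Σ k : ℕ, Fin k → A))
        obtain ⟨φ1, hφ11, hφ12⟩ := hF.conj (2 * γ) hone n (fun i => ψ (f i)) (fun i => hψ1 (f i))
        obtain ⟨φ2, hφ21, hφ22⟩ := hF.and false (2 * γ) n (Fml.qf φ0) φ1 (lv_qf _ _ _) hφ11
        refine ⟨φ2, hφ21, fun B s b => ?_⟩
        rw [hφ22, hq2, hφ12, BF_iff']
        constructor
        · rintro ⟨h1, h2⟩
          refine ⟨h1, fun δ hδ k c => ?_⟩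
          obtain ⟨i, hi⟩ := hf (⟨δ, hδ⟩, ⟨k, c⟩)
          have h3 := (hψ2 (f i) B s b).1 (h2 i)
          rw [hi] at h3
          exact h3
        · rintro ⟨h1, h2⟩
          refine ⟨h1, fun i => ?_⟩
          rw [hψ2]
          exact h2 (f i).1.1 (f i).1.2 (f i).2.1 (f i).2.2

theorem form : FORM_stmt := by
  intro hF l hl hcnt A _ _ r
  have hpos : 0 < l := hl.1
  have : Countable (Set.Iio l) := hcnt
  have : Nonempty (Set.Iio l) := ⟨⟨0, hpos⟩⟩
  obtain ⟨f, hf⟩ := exists_surjective_nat (Set.Iio l)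
  have hone : 1 ≤ l := by
    have := hl.2 0 hpos
    rw [zero_add] at this
    exact this.le
  have h1 : ∀ γ : Set.Iio l, ∃ φ : Fml 0, φ.Lv false l ∧ ∀ (B : Type) (s : B → B → Prop)
      (b : Fin 0 → B), φ.Realize s b ↔ (BF γ.1 r univ (Fin.elim0 : Fin 0 → A) s univ b ∧
        BF γ.1 s univ b r univ (Fin.elim0 : Fin 0 → A)) := by
    rintro ⟨γ, hγ⟩
    have hγ' : γ < l := hγ
    obtain ⟨⟨φ1, h11, h12⟩, ⟨φ2, h21, h22⟩⟩ := key hF r γ
      (hcnt.mono (Set.Iio_subset_Iio hγ'.le)) 0 (Fin.elim0 : Fin 0 → A)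
    have hle := (two_mul_lt_lim hl hγ').le
    obtain ⟨φ, hφ1, hφ2⟩ := hF.and false l 0 φ1 φ2 (hF.mono 0 φ1 false _ _ hle h11)
      (hF.mono 0 φ2 false _ _ hle h21)
    refine ⟨φ, hφ1, fun B s b => ?_⟩
    rw [hφ2, h12, h22]
  choose φ hφ1 hφ2 using h1
  obtain ⟨φ', hφ'1, hφ'2⟩ := hF.conj l hone 0 (fun i => φ (f i)) (fun i => hφ1 (f i))
  refine ⟨φ', hφ'1, fun B s => ?_⟩
  unfold Sat
  rw [hφ'2]
  constructor
  · intro h γ hγ
    obtain ⟨i, hi⟩ := hf ⟨γ, hγ⟩
    have h3 := (hφ2 (f i) B s _).1 (h i)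
    rw [hi] at h3
    exact h3
  · intro h i
    rw [hφ2]
    exact h (f i).1 (f i).2

end Pool.Agent.W494.SR
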